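import Pool.Agent.helper68.GB.Spec

set_option autoImplicit false

/-!
# Project GB (MP_baa4d7_al), row CJB: transport of block idempotents, pairs and inclusions by conjugation
-/

namespace Pool.Agent.GB

open Pool.Agent.helper58.DC Pool.Agent.DI Pool.Agent.GR Pool.Agent.OB Pool.Agent.DR Pool.Agent.FI Pool.Agent.FI3 Pool.Agent.FI4 Pool.Agent.LE Pool.Agent.BR

theorem CJB_inv {G : Type} [Group G] (g : G) (ψ : G → ℂ) : cjF g⁻¹ (cjF g ψ) = ψ := by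
  funext x
  rw [cjF_apply, cjF_apply]
  congr 1
  group

theorem CJB_inv' {G : Type} [Group G] (g : G) (ψ : G → ℂ) : cjF g (cjF g⁻¹ ψ) = ψ := by
  funext x
  rw [cjF_apply, cjF_apply]
  congr 1
  group

theorem CJB_sinv {G : Type} [Group G] (g : G) (P : Subgroup G) : cjS g⁻¹ (cjS g P) = P := by
  ext x
  rw [mem_cjS, mem_cjS]
  have h : g⁻¹ * (g⁻¹⁻¹ * x * g⁻¹) * g = x := by group
  rw [h]

/-- idempotents and conjugation -/
theorem CJB_eS (hFEQ : FEQ_stmt) {G : Type} [Group G] [Finite G] (g : G) (K : Subgroup G) (S : Set (G → ℂ)) : eS (cjS g K) (cjF g '' S) = cjF g (eS K S) := by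
  funext x
  rw [cjF_apply]
  unfold eS
  have hinj : Set.InjOn (cjF g) S := by
    intro a _ b _ h
    have h2 := congrArg (cjF g⁻¹) h
    rwa [CJB_inv, CJB_inv] at h2
  have hc := (hFEQ G ⊥ g 1 K K K 0 0 0).2.1.2.2.2.2.2
  rw [finsum_mem_image hinj, hc]
  congr 1
  refine finsum_congr fun ψ => finsum_congr fun _ => ?_
  rw [cjF_apply, cjF_apply]
  have h1 : g⁻¹ * 1 * g = 1 := by group
  have h2 : (g⁻¹ * x * g)⁻¹ = g⁻¹ * x⁻¹ * g := by group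
  rw [h1, h2]

/-- blocks and conjugation -/
theorem CJB_Bl (hFEQ : FEQ_stmt) {G : Type} [Group G] [Finite G] (M : Ideal (integralClosure ℤ ℂ)) (g : G) (K : Subgroup G) (η : G → ℂ) :
    Bl M (cjS g K) (cjF g η) = cjF g '' Bl M K η := by
  ext ψ
  constructor
  · intro h
    refine ⟨cjF g⁻¹ ψ, ?_, CJB_inv' g ψ⟩
    have h2 := (hFEQ G M g 1 K K K η (cjF g⁻¹ ψ) 0).2.2.2.2.2.2.1
    rw [CJB_inv'] at h2
    exact h2.2 h
  · rintro ⟨ψ', h, rfl⟩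
    exact (hFEQ G M g 1 K K K η ψ' 0).2.2.2.2.2.2.1.1 h

theorem CJB_eB (hFEQ : FEQ_stmt) {G : Type} [Group G] [Finite G] (M : Ideal (integralClosure ℤ ℂ)) (g : G) (K : Subgroup G) (η : G → ℂ) :
    eS (cjS g K) (Bl M (cjS g K) (cjF g η)) = cjF g (eS K (Bl M K η)) := by
  rw [CJB_Bl hFEQ, CJB_eS hFEQ]

theorem CJB_Irr (hFEQ : FEQ_stmt) {G : Type} [Group G] [Finite G] (g : G) (K : Subgroup G) {η : G → ℂ} (h : η ∈ IrrOn K) : cjF g η ∈ IrrOn (cjS g K) :=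
  (hFEQ G ⊥ g 1 K K K 0 η 0).2.2.2.1.1 h

theorem CJB_BB (hFEQ : FEQ_stmt) {G : Type} [Group G] [Finite G] (M : Ideal (integralClosure ℤ ℂ)) (g : G) (K : Subgroup G) {e : G → ℂ} (h : e ∈ BB M K) : cjF g e ∈ BB M (cjS g K) := by
  obtain ⟨η, h1, h2⟩ := h
  exact ⟨cjF g η, CJB_Irr hFEQ g K h1, by rw [CJB_eB hFEQ, h2]⟩

theorem CJB_BBiff (hFEQ : FEQ_stmt) {G : Type} [Group G] [Finite G] (M : Ideal (integralClosure ℤ ℂ)) (g : G) (K : Subgroup G) (e : G → ℂ) : e ∈ BB M K ↔ cjF g e ∈ BB M (cjS g K) := by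
  constructor
  · exact CJB_BB hFEQ M g K
  · intro h
    have h2 := CJB_BB hFEQ M g⁻¹ (cjS g K) h
    rwa [CJB_inv, CJB_sinv] at h2

theorem CJB_cz (hFEQ : FEQ_stmt) {G : Type} [Group G] [Finite G] (g : G) (P : Subgroup G) : cz (cjS g P) = cjS g (cz P) := (hFEQ G ⊥ g 1 P P P 0 0 0).2.1.1

theorem CJB_nz (hFEQ : FEQ_stmt) {G : Type} [Group G] [Finite G] (g : G) (P : Subgroup G) : nz (cjS g P) = cjS g (nz P) := (hFEQ G ⊥ g 1 P P P 0 0 0).2.1.2.1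

theorem CJB_Pai (hFEQ : FEQ_stmt) {G : Type} [Group G] [Finite G] (p : ℕ) (M : Ideal (integralClosure ℤ ℂ)) (g : G) {Q : Subgroup G} {e : G → ℂ} (h : Pai p M Q e) : Pai p M (cjS g Q) (cjF g e) := by
  refine ⟨h.pg.map _, ?_⟩
  rw [CJB_cz hFEQ]
  exact CJB_BB hFEQ M g _ h.bb

theorem CJB_cv {G : Type} [Group G] (g : G) (a b : G → ℂ) : cv (cjF g a) (cjF g b) = cjF g (cv a b) := by
  funext x
  rw [cjF_apply]
  unfold cv
  rw [← finsum_comp_equiv (MulAut.conj g).toEquiv]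
  refine finsum_congr fun y => ?_
  have h1 : (MulAut.conj g).toEquiv y = g * y * g⁻¹ := rfl
  rw [h1, cjF_apply, cjF_apply]
  congr 1
  · congr 1
    group
  · congr 1
    group

theorem CJB_rsk (hFEQ : FEQ_stmt) {G : Type} [Group G] [Finite G] (g : G) (R : Subgroup G) (e : G → ℂ) : rsk (cz (cjS g R)) (cjF g e) = cjF g (rsk (cz R) e) := by
  funext x
  rw [cjF_apply, CJB_cz hFEQ]
  unfold rsk
  by_cases hx : g⁻¹ * x * g ∈ cz R
  · rw [if_pos hx, if_pos (mem_cjS.2 hx), cjF_apply]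
  · rw [if_neg hx, if_neg (fun h => hx (mem_cjS.1 h))]

theorem CJB_Nin (hFEQ : FEQ_stmt) {G : Type} [Group G] [Finite G] (p : ℕ) (M : Ideal (integralClosure ℤ ℂ)) (g : G) {Q R : Subgroup G} {e f : G → ℂ} (h : Nin p M Q e R f) :
    Nin p M (cjS g Q) (cjF g e) (cjS g R) (cjF g f) := by
  refine ⟨CJB_Pai hFEQ p M g h.q, CJB_Pai hFEQ p M g h.r, Subgroup.map_mono h.le, ?_, ?_, ?_⟩
  · rw [CJB_nz hFEQ]
    exact Subgroup.map_mono h.nor
  · intro s hs x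
    have h1 := h.inv _ (mem_cjS.1 hs) (g⁻¹ * x * g)
    rw [cjF_apply, cjF_apply, ← h1]
    congr 1
    group
  · intro x
    rw [CJB_rsk hFEQ, CJB_cv, cjF_apply, cjF_apply]
    exact h.ef _

theorem CJB_Pin (hFEQ : FEQ_stmt) {G : Type} [Group G] [Finite G] (p : ℕ) (M : Ideal (integralClosure ℤ ℂ)) (g : G) {Q R : Subgroup G} {e f : G → ℂ} (h : Pin p M Q e R f) :
    Pin p M (cjS g Q) (cjF g e) (cjS g R) (cjF g f) := by
  unfold Pin at h ⊢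
  exact Relation.ReflTransGen.lift (r := fun a b : Subgroup G × (G → ℂ) => Nin p M a.1 a.2 b.1 b.2) (p := fun a b : Subgroup G × (G → ℂ) => Nin p M a.1 a.2 b.1 b.2)
    (fun a : Subgroup G × (G → ℂ) => (cjS g a.1, cjF g a.2)) (fun _ _ hab => CJB_Nin hFEQ p M g hab) _ _ h

theorem CJB (hFEQ : FEQ_stmt) (hREP : REP_stmt) : CJB_stmt := by
  intro p M hS G _ _ g K e
  refine ⟨CJB_BBiff hFEQ M g K e, ?_, ?_, ?_, ?_⟩
  · intro he
    obtain ⟨-, h2, h3, -, -⟩ := hREP p M hS G (cjS g K)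
    obtain ⟨-, k2, -, -, -⟩ := hREP p M hS G K
    obtain ⟨a1, a2⟩ := h2 _ (CJB_BB hFEQ M g K he)
    obtain ⟨b1, b2⟩ := k2 _ he
    refine (h3 _ a1 _ (CJB_Irr hFEQ g K b1)).1 ?_
    rw [a2, CJB_eB hFEQ, b2]
  · intro hg he
    obtain ⟨-, -, -, k4, -⟩ := hREP p M hS G K
    funext x
    rw [cjF_apply]
    have h1 := (k4 e he).1.1 g⁻¹ (K.inv_mem hg) x
    rwa [inv_inv] at h1
  · intro Q he s hs x
    obtain ⟨-, -, -, k4, -⟩ := hREP p M hS G (cz Q)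
    have hz := (k4 e he).2.1
    have hsn : ∀ s ∈ Q, s ∈ nz Q := fun s hs => Subgroup.le_normalizer hs
    by_cases hx : x ∈ cz Q
    · have h1 : s * x = x * s := Subgroup.mem_centralizer_iff.1 hx s hs
      have h2 : s * x * s⁻¹ = x := by rw [h1]; group
      rw [h2]
    · rw [hz x hx, hz]
      intro hx2
      apply hx
      have h3 := cz_conj (hsn _ (Q.inv_mem hs)) hx2
      have h4 : s⁻¹ * (s * x * s⁻¹) * s⁻¹⁻¹ = x := by group
      rwa [h4] at h3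
  · intro Q R f
    refine ⟨⟨CJB_Pai hFEQ p M g, fun h => ?_⟩, ⟨CJB_Nin hFEQ p M g, fun h => ?_⟩, ⟨CJB_Pin hFEQ p M g, fun h => ?_⟩⟩
    · have h2 := CJB_Pai hFEQ p M g⁻¹ h
      rwa [CJB_inv, CJB_sinv] at h2
    · have h2 := CJB_Nin hFEQ p M g⁻¹ h
      rwa [CJB_inv, CJB_sinv, CJB_inv, CJB_sinv] at h2
    · have h2 := CJB_Pin hFEQ p M g⁻¹ h
      rwa [CJB_inv, CJB_sinv, CJB_inv, CJB_sinv] at h2

end Pool.Agent.GB
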